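import Pool.Agent.J4H91.AA.Multi

/-!
# The Aaronson–Ambainis conjecture for invariants of relational structures

The conjecture is proved for the functions `f : {-1,1}^I → [-1,1]` whose coordinates are the
possible facts about a finite relational structure, and which do not change under relabelling of
its elements.

* Many-sorted structures: `k` sorts `V s`, and `m` relation symbols `j`, of arity `a j ≤ r`, whose
  arguments have the sorts `τ j 0, τ j 1, ...`. There is one `±1` coordinate for each relation
  symbol `j` and each tuple of arguments of the right sorts. If `f` has degree at most `d` and is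
  invariant under the permutations of each of the sorts, then some coordinate has influence at least
  `Var(f)^(2r+1) / (2 m (266256 k² (r d)^8)^r)`.
  For instance: invariants of directed graphs (`k = m = 1`, `r = 2`), of matrices under
  permutations of the rows and of the columns (`k = 2`, `m = 1`, `r = 2`), and functions which are
  symmetric in each of `k` blocks of coordinates (`m = k`, `r = 1`).
* Hypergraphs: one coordinate for each multiset of `r` vertices. Graphs with loops are the case
  `r = 2`, and functions of simple graphs are functions that do not depend on the loops.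

Proof. Let `V` be one of the sorts, `N = |V|`, and let `g_R(x)` be the average of `f` over the
structures `x ∘ θ`, where `θ : V → V` is a random map whose range has at most `R` elements. For
fixed `x` this is a polynomial in `1/R` of degree at most `r d` whose value at `0` is `f(x)`, and it
is bounded by `1` at `1/R` for `R = 1, ..., N`. By Markov's inequality
`|f(x) - g_R(x)| ≤ 64 (r d)^4 / R`. On the other hand `g_R` is an average of functions which depend
on the elements of a random set of size `R` only, and most pairs of such sets are disjoint, so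
the part of the variance of `g_R` on the coordinates which mention `V` is at most `R² / N`.
Hence the corresponding part `W` of `Var(f)` satisfies `N W² ≤ 66564 (r d)^8`. The coordinates that
mention a sort with more than `266256 k² (r d)^8 / Var(f)²` elements carry less than half of the
variance, and there are few other coordinates.
-/

set_option autoImplicit false

namespace Pool.Agent.J4H91.keep.StructureInvariants

section definitions

variable {I : Type} [Fintype I] [DecidableEq I]

/-- The expectation under the uniform measure on `{-1,1}^I`. -/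
noncomputable def mean (f : (I → ℤˣ) → ℝ) : ℝ := (∑ x, f x) / (2 : ℝ) ^ (Fintype.card I)

/-- `Var(f) = E[f²] - (E f)²` -/
noncomputable def Var (f : (I → ℤˣ) → ℝ) : ℝ := mean (fun x => f x ^ 2) - mean f ^ 2

/-- `Inf_p(f) = E[((f(x^{p → 1}) - f(x^{p → -1})) / 2)²]` -/
noncomputable def Inf (f : (I → ℤˣ) → ℝ) (p : I) : ℝ :=
  mean fun x => ((f (Function.update x p 1) - f (Function.update x p (-1))) / 2) ^ 2

/-- `deg(f) ≤ d`: the Fourier coefficients of the sets with more than `d` elements vanish. -/
def DegLE (f : (I → ℤˣ) → ℝ) (d : ℕ) : Prop :=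
  ∀ S : Finset I, d < S.card → ∑ x, f x * ∏ p ∈ S, ((x p : ℤ) : ℝ) = 0

end definitions

theorem structure_invariants :
    -- invariants of many-sorted relational structures
    (∀ (K : Type) [Fintype K] [DecidableEq K] [Nonempty K]
      (V : K → Type) [∀ s, Fintype (V s)] [∀ s, DecidableEq (V s)]
      (J : Type) [Fintype J] [DecidableEq J] (a : J → ℕ) (τ : ∀ j, Fin (a j) → K)
      (r d : ℕ), 1 ≤ r → 1 ≤ d → (∀ j, a j ≤ r) →
      ∀ f : ((Σ j : J, ∀ i : Fin (a j), V (τ j i)) → ℤˣ) → ℝ, (∀ x, |f x| ≤ 1) → DegLE f d →
      (∀ (σ : ∀ s, Equiv.Perm (V s)) (x : (Σ j : J, ∀ i : Fin (a j), V (τ j i)) → ℤˣ),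
        f (fun p => x ⟨p.1, fun i => σ (τ p.1 i) (p.2 i)⟩) = f x) →
      0 < Var f →
      ∃ p, Var f ^ (2 * r + 1) ≤
        2 * (Fintype.card J : ℝ) *
          (266256 * (Fintype.card K : ℝ) ^ 2 * ((r * d : ℕ) : ℝ) ^ 8) ^ r * Inf f p) ∧
    -- invariants of hypergraphs
    (∀ (V : Type) [Fintype V] [DecidableEq V] (r d : ℕ), 1 ≤ r → 1 ≤ d →
      ∀ f : (Sym V r → ℤˣ) → ℝ, (∀ x, |f x| ≤ 1) → DegLE f d →
      (∀ (σ : Equiv.Perm V) (x : Sym V r → ℤˣ), f (fun e => x (e.map σ)) = f x) →
      0 < Var f →
      ∃ e, Var f ^ (2 * r + 1) ≤ (66564 * ((r * d : ℕ) : ℝ) ^ 8) ^ r * Inf f e) := by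
  refine ⟨?_, ?_⟩
  · intro K _ _ _ V _ _ J _ _ a τ r d hr hd ha f hf hdeg hinv hv
    exact Pool.Agent.J4H91.AA.multi a τ r d hr hd ha f hf hdeg hinv hv
  · intro V _ _ r d hr hd f hf hdeg hinv hv
    exact Pool.Agent.J4H91.AA.hyper r d hr hd f hf hdeg hinv hv

end Pool.Agent.J4H91.keep.StructureInvariants
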